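import Pool.Agent.MP_aa180b_lc.H22.Converse

/-! Families that contain an arithmetic subsequence of each of their members. -/

set_option autoImplicit false

namespace Pool.Agent.MP_aa180b_lc.H87

open Filter Function Set Pool.Agent.MP_aa180b_lc.H48 Pool.Agent.MP_aa180b_lc.H22

theorem pre_sublist (e : ℕ → ℕ) {x : ℕ → ℕ} (hx : StrictMono x) (k : ℕ) :
    (pre (e ∘ x) k).Sublist (pre e (x k)) := by
  induction k with
  | zero => simp
  | succ k ih =>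
    obtain ⟨m, hm⟩ : ∃ m, x (k + 1) = x k + 1 + m :=
      Nat.exists_eq_add_of_le (hx (Nat.lt_succ_self k))
    have h1 : (pre (e ∘ x) (k + 1)).Sublist (pre e (x k + 1)) := ih.cons_cons _
    rw [hm]
    exact h1.trans (drop_pre e (x k + 1) m ▸ List.drop_sublist _ _)

/-- a forced set contains all subsequences of one sequence -/
theorem cube {Z : Set (ℕ → ℕ)} (h : Force (hyperfilter ℕ) [] Z) :
    ∃ e : ℕ → ℕ, StrictMono e ∧ ∀ x, StrictMono x → e ∘ x ∈ Z := by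
  obtain ⟨A, hA, h⟩ := h
  have h1 : Force (hyperfilter ℕ) [] {e | ∀ k, ∀ t ∈ (pre e k).sublists, e k ∈ A t} :=
    ⟨fun u => ⋂ t ∈ u.sublists.toFinset, A t, fun u => (biInter_finset_mem _).2 fun t _ => hA t,
      fun a _ ha k t ht => mem_iInter₂.1 (ha k (by simp)) t (List.mem_toFinset.2 ht)⟩
  obtain ⟨e, he, h2⟩ := (force_strictMono.inter h1).exists_root
  exact ⟨e, he, fun x hx => h _ rfl fun k _ =>
    h2 (x k) _ (List.mem_sublists.2 (pre_sublist e hx k))⟩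

/-- the arithmetic subsequence -/
def ap (k i : ℕ) (y : ℕ → ℕ) : ℕ → ℕ := fun n => y (k * n + i)

theorem measurable_ap (k i : ℕ) : Measurable (ap k i) :=
  measurable_pi_lambda _ fun _ => measurable_pi_apply _

theorem ap_mono {k : ℕ} (hk : 2 ≤ k) (i : ℕ) {y : ℕ → ℕ} (hy : StrictMono y) :
    StrictMono (ap k i y) := fun _ _ h =>
  hy (Nat.add_lt_add_right (Nat.mul_lt_mul_of_pos_left h (by omega)) i)

variable {B : Set (ℕ → ℕ)}

/-- members with an arithmetic subsequence of step `k` in the family -/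
def Ck (B : Set (ℕ → ℕ)) (k : ℕ) : Set (ℕ → ℕ) := B ∩ ⋃ i, ap k i ⁻¹' B

theorem ck_inv (hi : ∀ x y : ℕ → ℕ, StrictMono x → StrictMono y →
      (∃ m n : ℕ, ∀ k : ℕ, x (m + k) = y (n + k)) → (x ∈ B ↔ y ∈ B)) {k : ℕ} (hk : 2 ≤ k)
    (x y : ℕ → ℕ) (hx : StrictMono x) (hy : StrictMono y)
    (h : ∃ m n : ℕ, ∀ k : ℕ, x (m + k) = y (n + k)) (hC : x ∈ Ck B k) : y ∈ Ck B k := by
  refine ⟨(hi x y hx hy h).1 hC.1, ?_⟩
  obtain ⟨i, hi'⟩ := mem_iUnion.1 hC.2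
  obtain ⟨m, n, h⟩ := h
  obtain ⟨j, rfl⟩ : ∃ j, k = j + 1 := ⟨k - 1, by omega⟩
  refine mem_iUnion.2 ⟨j * m + i + n, (hi _ _ (ap_mono hk i hx) (ap_mono hk _ hy)
    ⟨m, 0, fun t => ?_⟩).1 hi'⟩
  have := h ((j + 1) * t + j * m + i)
  unfold ap
  convert this using 2 <;> ring

theorem hom_of_pow (hB : MeasurableSet B) (hs : ∀ x ∈ B, StrictMono x)
    (hi : ∀ x y : ℕ → ℕ, StrictMono x → StrictMono y →
      (∃ m n : ℕ, ∀ k : ℕ, x (m + k) = y (n + k)) → (x ∈ B ↔ y ∈ B)) {k : ℕ} (hk : 2 ≤ k)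
    {φ : (ℕ → ℕ) → (ℕ → ℕ)} (hφ : Measurable φ)
    (h : ∀ x, StrictMono x → φ x ∈ Ck B k ∧ φ (x ∘ Nat.succ) = shf k (φ x)) :
    ∃ ψ : (ℕ → ℕ) → (ℕ → ℕ), Measurable ψ ∧
      ∀ x, StrictMono x → ψ x ∈ B ∧ ψ (x ∘ Nat.succ) = ψ x ∘ Nat.succ := by
  obtain ⟨r, hr⟩ : ∃ r, Force (hyperfilter ℕ) [] {x | ap k r (φ x) ∈ B} := by
    by_contra hn
    have := force_list (W := hyperfilter ℕ) (s := []) (List.range k)
      (fun r => {x | ap k r (φ x) ∈ B}ᶜ) fun r _ =>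
        (force_meas (((measurable_ap k r).comp hφ) hB)).resolve_left fun h' => hn ⟨r, h'⟩
    obtain ⟨x, hx, h1⟩ := (force_strictMono.inter this).exists_root
    obtain ⟨i, h2⟩ := mem_iUnion.1 (h x hx).1.2
    have h3 := hs _ (h x hx).1.1
    refine h1 (i % k) (List.mem_range.2 (Nat.mod_lt _ (by omega)))
      ((hi _ _ (ap_mono hk i h3) (ap_mono hk _ h3) ⟨0, i / k, fun t => ?_⟩).1 h2)
    unfold ap
    congr 1
    rw [mul_add k (i / k), zero_add, add_right_comm, Nat.div_add_mod, add_comm]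
  obtain ⟨e, he, h1⟩ := cube hr
  refine ⟨fun x => ap k r (φ (e ∘ x)), (measurable_ap k r).comp (hφ.comp
    (measurable_pi_lambda _ fun n => (measurable_from_top (f := e)).comp (measurable_pi_apply n))),
    fun x hx => ⟨h1 x hx, ?_⟩⟩
  funext n
  have := congrFun (h _ (he.comp hx)).2 (k * n + r)
  refine this.trans ?_
  simp only [shf, ap, comp]
  congr 1
  rw [Nat.succ_eq_add_one]
  ring

theorem reg (hB : MeasurableSet B) (hs : ∀ x ∈ B, StrictMono x)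
    (hi : ∀ x y : ℕ → ℕ, StrictMono x → StrictMono y →
      (∃ m n : ℕ, ∀ k : ℕ, x (m + k) = y (n + k)) → (x ∈ B ↔ y ∈ B))
    (hr : ∀ y ∈ B, ∃ k i, 2 ≤ k ∧ ap k i y ∈ B) :
    (∃ h : (ℕ → ℕ) → ℝ, Measurable h ∧
      (∀ x y : ℕ → ℕ, (∃ m n : ℕ, ∀ k : ℕ, x (m + k) = y (n + k)) → h x = h y) ∧
      ∀ x ∈ B, ∃ c : (ℕ → ℕ) → Fin 3, Measurable c ∧ ∀ y, h y = h x → c (shf 1 y) ≠ c y) ∨
    ∃ ψ : (ℕ → ℕ) → (ℕ → ℕ), Measurable ψ ∧
      ∀ x, StrictMono x → ψ x ∈ B ∧ ψ (x ∘ Nat.succ) = ψ x ∘ Nat.succ := by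
  refine or_iff_not_imp_right.2 fun hn => ?_
  choose h h1 h2 h3 using fun j : ℕ => (main (r := 1) (k := j + 2) (B := Ck B (j + 2)) le_rfl
    (by omega) (hB.inter (MeasurableSet.iUnion fun i => measurable_ap _ i hB))
    (fun x hx => hs x hx.1) fun x y hx hy h => ⟨ck_inv hi (by omega) x y hx hy h,
      ck_inv hi (by omega) y x hy hx
        (by obtain ⟨m, n, h⟩ := h; exact ⟨n, m, fun k => (h k).symm⟩)⟩).resolve_right
    fun ⟨φ, hφ, h⟩ => hn (hom_of_pow hB hs hi (k := j + 2) (by omega) hφ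
      fun x hx => ⟨(h x hx).1, by rw [(h x hx).2, one_mul]⟩)
  have he := MeasureTheory.measurableEmbedding_embeddingReal (ℕ → ℝ)
  refine ⟨fun y => MeasureTheory.embeddingReal (ℕ → ℝ) fun r => h r y,
    he.measurable.comp (measurable_pi_lambda _ h1), fun x y hxy => ?_, fun x hx => ?_⟩
  · simp only [fun r => h2 r x y hxy]
  · obtain ⟨k, i, hk, h4⟩ := hr x hx
    obtain ⟨j, rfl⟩ : ∃ j, k = j + 2 := ⟨k - 2, by omega⟩
    obtain ⟨c, h5, h6⟩ := h3 j x ⟨hx, mem_iUnion.2 ⟨i, h4⟩⟩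
    exact ⟨c, h5, fun y hy => h6 y (congrFun (he.injective hy) j)⟩

end Pool.Agent.MP_aa180b_lc.H87
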